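import Pool.Agent.H26.LN.Defs
import Pool.Agent.H26.LM.Rel

/-!
# Untwisting: the relation for a structure from the relation for its Tate twist
-/

noncomputable section

namespace GD

open Complex NumberField Module

section basic

variable {S R : Str} {g : S.W ≃ₗ[ℂ] R.W} {n : ℕ}

/-- The number `(2 π i) ^ n`. -/
private def tw (n : ℕ) : ℂ := (2 * Real.pi * I : ℂ) ^ n

private theorem tw_ne (n : ℕ) : tw n ≠ 0 := two_pi_I_ne n

private theorem tw_dR (hD : ∀ x, S.InD x ↔ R.InD (tw n • g x)) {y : R.W} (hy : y ∈ R.D) :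
    (tw n)⁻¹ • g.symm y ∈ S.D := by
  refine (hD _).2 ?_
  change tw n • g ((tw n)⁻¹ • g.symm y) ∈ R.D
  rw [map_smul, smul_inv_smul₀ (tw_ne n), g.apply_symm_apply]
  exact hy

private theorem tw_hodge (hH : ∀ p x, S.InH p x ↔ R.InH (p + n) (g x)) {p : ℕ} {y : R.W}
    (hy : y ∈ R.hodge p) (h0 : y ≠ 0) : n ≤ p ∧ g.symm y ∈ S.hodge (p - n) := by
  have h1 : n ≤ p := by
    by_contra hlt
    apply h0
    have h2 : g.symm y ∈ (⨆ q, S.hodge q : Submodule ℂ S.W) := by
      rw [((DirectSum.isInternal_submodule_iff_iSupIndep_and_iSup_eq_top _).1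
        S.hodge_internal).2]
      exact Submodule.mem_top
    have h3 : y ∈ (⨆ (q : ℕ) (_ : q ≠ p), R.hodge q : Submodule ℂ R.W) := by
      have h4 : (⨆ q, S.hodge q : Submodule ℂ S.W).map (g : S.W →ₗ[ℂ] R.W) ≤
          ⨆ (q : ℕ) (_ : q ≠ p), R.hodge q := by
        rw [Submodule.map_iSup]
        refine iSup_le fun q => ?_
        rintro _ ⟨x, hx, rfl⟩
        have h5 : q + n ≠ p := by omega
        exact le_iSup₂ (f := fun (q : ℕ) (_ : q ≠ p) => R.hodge q) (q + n) h5 ((hH q x).1 hx)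
      have h5 := h4 (Submodule.mem_map_of_mem h2)
      rwa [LinearEquiv.coe_coe, g.apply_symm_apply] at h5
    have h4 := ((DirectSum.isInternal_submodule_iff_iSupIndep_and_iSup_eq_top _).1
      R.hodge_internal).1 p
    exact Submodule.disjoint_def.1 h4 y hy h3
  refine ⟨h1, (hH _ _).2 ?_⟩
  rw [Nat.sub_add_cancel h1, g.apply_symm_apply]
  exact hy

/-- The polarisation of the twist. -/
private theorem tw_pol (hwt : R.wt = S.wt + 2 * n) (hB : ∀ x, x ∈ S.B ↔ g x ∈ R.B)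
    (hD : ∀ x, S.InD x ↔ R.InD (tw n • g x)) (hH : ∀ p x, S.InH p x ↔ R.InH (p + n) (g x))
    (P : Pol S) : Nonempty (Pol R) := by
  refine ⟨⟨P.E.compl₁₂ (g.symm : R.W →ₗ[ℂ] S.W) (g.symm : R.W →ₗ[ℂ] S.W), ?_, ?_, ?_, ?_⟩⟩
  · intro x hx y hy
    refine P.rat _ ((hB _).2 ?_) _ ((hB _).2 ?_)
    · change g (g.symm x) ∈ R.B
      rwa [g.apply_symm_apply]
    · change g (g.symm y) ∈ R.B
      rwa [g.apply_symm_apply]
  · intro x hx y hy
    obtain ⟨a, ha, h1⟩ := P.dR _ (tw_dR hD hx) _ (tw_dR hD hy)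
    refine ⟨a, ha, ?_⟩
    change P.E (g.symm x) (g.symm y) = _
    have h2 : P.E ((tw n)⁻¹ • g.symm x) ((tw n)⁻¹ • g.symm y) =
        (tw n)⁻¹ * ((tw n)⁻¹ * P.E (g.symm x) (g.symm y)) := by
      rw [map_smul, map_smul, LinearMap.smul_apply, smul_eq_mul, smul_eq_mul]
    rw [h2] at h1
    have h3 : P.E (g.symm x) (g.symm y) = tw n * (tw n * ((2 * Real.pi * I) ^ S.wt * a)) := by
      rw [← h1, mul_inv_cancel_left₀ (tw_ne n), mul_inv_cancel_left₀ (tw_ne n)]
    rw [h3, hwt]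
    unfold tw
    ring
  · intro p q hpq x hx y hy
    change P.E (g.symm x) (g.symm y) = 0
    by_cases hx0 : x = 0
    · rw [hx0, map_zero, map_zero, LinearMap.zero_apply]
    by_cases hy0 : y = 0
    · rw [hy0, map_zero, map_zero]
    obtain ⟨h1, h2⟩ := tw_hodge hH hx hx0
    obtain ⟨h3, h4⟩ := tw_hodge hH hy hy0
    exact P.orth (p - n) (q - n) (by omega) _ h2 _ h4
  · intro p hp x hx h0
    obtain ⟨h1, h2⟩ := tw_hodge hH hx h0
    have h3 : g.symm x ≠ 0 := by
      intro h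
      exact h0 (g.symm.map_eq_zero_iff.1 h)
    have h4 : p - n ≤ S.wt := by
      by_contra h
      have h5 := S.hodge_large (p - n) (by omega)
      rw [h5, Submodule.mem_bot] at h2
      exact h3 h2
    obtain ⟨r, hr, h5⟩ := P.pos (p - n) h4 _ h2 h3
    refine ⟨r, hr, ?_⟩
    change I ^ (2 * (p : ℤ) - R.wt) * P.E (g.symm x) (g.symm (R.conj x)) = r
    have h6 : g.symm (R.conj x) = S.conj (g.symm x) := by
      have h7 := DT.map_conj (f := (g : S.W →ₗ[ℂ] R.W)) (fun b hb => (hB b).1 hb) (g.symm x)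
      rw [LinearEquiv.coe_coe, g.apply_symm_apply] at h7
      rw [← h7, g.symm_apply_apply]
    have h7 : (2 * (p : ℤ) - R.wt) = 2 * ((p - n : ℕ) : ℤ) - S.wt := by
      rw [hwt]
      push_cast [Nat.cast_sub h1]
      ring
    rw [h6, h7]
    exact h5

end basic

section sub

variable {S R : Str} (g : S.W ≃ₗ[ℂ] R.W) {n : ℕ} (M : Submodule ℚ S.W)

/-- The image of a rational subspace. -/
private def twN : Submodule ℚ R.W := M.map ((g : S.W →ₗ[ℂ] R.W).restrictScalars ℚ)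

private theorem tw_cx : (S.cx M).map (g : S.W →ₗ[ℂ] R.W) = R.cx (twN g M) := by
  rw [Submodule.map_span]
  rfl

private theorem tw_mem {x : S.W} : g x ∈ twN g M ↔ x ∈ M := by
  constructor
  · rintro ⟨y, hy, h⟩
    have h1 : g y = g x := h
    rwa [← g.injective h1]
  · exact fun h => ⟨x, h, rfl⟩

private theorem tw_mem_cx {x : S.W} : g x ∈ R.cx (twN g M) ↔ x ∈ S.cx M := by
  rw [← tw_cx]
  constructor
  · rintro ⟨y, hy, h⟩
    have h1 : g y = g x := h
    rwa [← g.injective h1]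
  · exact fun h => ⟨x, h, rfl⟩

/-- The equivalence between the complexifications. -/
private def twE : S.cx M ≃ₗ[ℂ] R.cx (twN g M) :=
  (g.submoduleMap (S.cx M)).trans (LinearEquiv.ofEq _ _ (tw_cx g M))

private theorem twE_coe (x : S.cx M) : ((twE g M x : R.cx (twN g M)) : R.W) = g x := rfl

private theorem twE_symm (y : R.cx (twN g M)) : (((twE g M).symm y : S.cx M) : S.W) =
    g.symm y := by
  apply g.injective
  rw [g.apply_symm_apply, ← twE_coe, LinearEquiv.apply_symm_apply]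

variable {K : Type} [Field K] (ι : K →+* Module.End ℂ (S.cx M))

/-- The transported action. -/
private def twA : K →+* Module.End ℂ (R.cx (twN g M)) where
  toFun a := (twE g M : S.cx M →ₗ[ℂ] R.cx (twN g M)) ∘ₗ ι a ∘ₗ
    ((twE g M).symm : R.cx (twN g M) →ₗ[ℂ] S.cx M)
  map_one' := by
    ext y
    simp
  map_mul' a b := by
    ext y
    simp
  map_zero' := by
    ext y
    simp
  map_add' a b := by
    ext y
    simp

private theorem twA_apply (a : K) (x : S.cx M) :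
    twA g M ι a (twE g M x) = twE g M (ι a x) := by
  change twE g M (ι a ((twE g M).symm (twE g M x))) = _
  rw [LinearEquiv.symm_apply_apply]

private theorem tw_eig (τ : K →+* ℂ) :
    eig (twA g M ι) τ = (eig ι τ).map (g : S.W →ₗ[ℂ] R.W) := by
  ext y
  rw [mem_eig (twA g M ι), Submodule.mem_map]
  constructor
  · rintro ⟨h, h1⟩
    refine ⟨g.symm y, (mem_eig ι).2 ⟨?_, fun a => ?_⟩, g.apply_symm_apply y⟩
    · refine (tw_mem_cx g M).1 ?_
      rwa [g.apply_symm_apply]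
    · have h2 := h1 a
      have h3 : (⟨y, h⟩ : R.cx (twN g M)) = twE g M ((twE g M).symm ⟨y, h⟩) :=
        (LinearEquiv.apply_symm_apply _ _).symm
      rw [h3, twA_apply, ← map_smul] at h2
      have h4 := (twE g M).injective h2
      have h5 : (⟨g.symm y, (tw_mem_cx g M).1 (by rwa [g.apply_symm_apply])⟩ : S.cx M) =
          (twE g M).symm ⟨y, h⟩ := Subtype.ext (twE_symm g M ⟨y, h⟩).symm
      rw [h5]
      exact h4
  · rintro ⟨x, hx, rfl⟩
    obtain ⟨h, h1⟩ := (mem_eig ι).1 hx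
    refine ⟨(tw_mem_cx g M).2 h, fun a => ?_⟩
    have h2 : (⟨g x, (tw_mem_cx g M).2 h⟩ : R.cx (twN g M)) = twE g M ⟨x, h⟩ := rfl
    change twA g M ι a ⟨g x, (tw_mem_cx g M).2 h⟩ = τ a • (⟨g x, (tw_mem_cx g M).2 h⟩ :
      R.cx (twN g M))
    rw [h2, twA_apply, h1 a, map_smul]

private theorem tw_sub (hB : ∀ x, x ∈ S.B ↔ g x ∈ R.B)
    (hD : ∀ x, S.InD x ↔ R.InD (tw n • g x)) (hH : ∀ p x, S.InH p x ↔ R.InH (p + n) (g x))
    (hM : IsSub S M) : IsSub R (twN g M) := by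
  refine ⟨?_, ?_, ?_⟩
  · rintro _ ⟨x, hx, rfl⟩
    exact (hB x).1 (hM.le hx)
  · unfold SubHodge
    rw [← tw_cx]
    have h1 := Submodule.map_mono (f := (g : S.W →ₗ[ℂ] R.W)) hM.hodge
    refine h1.trans ?_
    rw [Submodule.map_iSup]
    refine iSup_le fun p => ?_
    refine le_trans ?_ (le_iSup (fun q => (S.cx M).map (g : S.W →ₗ[ℂ] R.W) ⊓ R.hodge q) (p + n))
    rintro _ ⟨x, ⟨hx1, hx2⟩, rfl⟩
    exact ⟨⟨x, hx1, rfl⟩, (hH p x).1 hx2⟩
  · rw [← tw_cx]
    have h1 := Submodule.map_mono (f := (g : S.W →ₗ[ℂ] R.W)) hM.deRham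
    refine h1.trans ?_
    rw [Submodule.map_span]
    refine Submodule.span_le.2 ?_
    rintro _ ⟨x, ⟨hx1, hx2⟩, rfl⟩
    have h2 : tw n • g x ∈ R.D := (hD x).1 hx1
    have h3 : (g : S.W →ₗ[ℂ] R.W) x = (tw n)⁻¹ • (tw n • g x) := by
      rw [inv_smul_smul₀ (tw_ne n)]
      rfl
    rw [h3]
    refine Submodule.smul_mem _ _ (Submodule.subset_span ⟨h2, ?_⟩)
    exact Submodule.smul_mem _ _ ⟨x, hx2, rfl⟩

private theorem tw_end (hD : ∀ x, S.InD x ↔ R.InD (tw n • g x))
    (hH : ∀ p x, S.InH p x ↔ R.InH (p + n) (g x)) {a : K} (ha : IsEnd S M (ι a)) :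
    IsEnd R (twN g M) (twA g M ι a) := by
  refine ⟨fun y hy => ?_, fun y hy => ?_, fun p y hy => ?_⟩
  · obtain ⟨x, rfl⟩ := (twE g M).surjective y
    rw [twA_apply, twE_coe]
    rw [twE_coe] at hy
    exact (tw_mem g M).2 (ha.betti x ((tw_mem g M).1 hy))
  · obtain ⟨x, rfl⟩ := (twE g M).surjective y
    rw [twA_apply, twE_coe]
    rw [twE_coe] at hy
    have h1 := tw_dR hD hy
    rw [g.symm_apply_apply] at h1
    have h2 := ha.deRham ((tw n)⁻¹ • x) h1
    have h3 : tw n • g ((ι a ((tw n)⁻¹ • x) : S.cx M) : S.W) ∈ R.D := (hD _).1 h2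
    rw [map_smul, Submodule.coe_smul, map_smul, smul_inv_smul₀ (tw_ne n)] at h3
    exact h3
  · obtain ⟨x, rfl⟩ := (twE g M).surjective y
    rw [twA_apply, twE_coe]
    rw [twE_coe] at hy
    by_cases h0 : g (x : S.W) = 0
    · have h1 : x = 0 := Subtype.ext (g.map_eq_zero_iff.1 h0)
      rw [h1, map_zero, ZeroMemClass.coe_zero, map_zero]
      exact zero_mem _
    · obtain ⟨h1, h2⟩ := tw_hodge hH hy h0
      rw [g.symm_apply_apply] at h2
      have h3 := (hH _ _).1 (ha.hodge _ x h2)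
      rwa [Nat.sub_add_cancel h1] at h3

private theorem tw_type [NumberField K] (hwt : R.wt = S.wt + 2 * n)
    (hH : ∀ p x, S.InH p x ↔ R.InH (p + n) (g x)) (hM : IsSub S M)
    (hι : ∀ a, IsEnd S M (ι a)) (τ : K →+* ℂ) :
    detType (twA g M ι) τ = detType ι τ + n * finrank ℂ (eig ι τ) := by
  have h1 : ∀ p, finrank ℂ (eig (twA g M ι) τ ⊓ R.hodge (p + n) : Submodule ℂ R.W) =
      finrank ℂ (eig ι τ ⊓ S.hodge p : Submodule ℂ S.W) := by
    intro p
    have h2 : (eig (twA g M ι) τ ⊓ R.hodge (p + n) : Submodule ℂ R.W) =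
        (eig ι τ ⊓ S.hodge p : Submodule ℂ S.W).map (g : S.W →ₗ[ℂ] R.W) := by
      rw [tw_eig]
      ext y
      constructor
      · rintro ⟨⟨x, hx, rfl⟩, hy⟩
        exact ⟨x, ⟨hx, (hH p x).2 hy⟩, rfl⟩
      · rintro ⟨x, ⟨hx1, hx2⟩, rfl⟩
        exact ⟨⟨x, hx1, rfl⟩, (hH p x).1 hx2⟩
    rw [h2]
    exact g.finrank_map_eq _
  have h2 : ∀ p, p < n → R.hodge p = ⊥ := by
    intro p hp
    rw [eq_bot_iff]
    intro y hy
    rw [Submodule.mem_bot]
    by_contra h0
    have h3 := (tw_hodge hH hy h0).1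
    omega
  have h3 : R.wt + 1 = n + ((S.wt + 1) + n) := by omega
  unfold detType
  rw [h3, Finset.sum_range_add, Finset.sum_range_add]
  have h4 : ∑ p ∈ Finset.range n,
      p * finrank ℂ (eig (twA g M ι) τ ⊓ R.hodge p : Submodule ℂ R.W) = 0 := by
    refine Finset.sum_eq_zero fun p hp => ?_
    rw [h2 p (Finset.mem_range.1 hp), inf_bot_eq, finrank_bot, mul_zero]
  have h5 : ∑ r ∈ Finset.range n, (n + (S.wt + 1 + r)) *
      finrank ℂ (eig (twA g M ι) τ ⊓ R.hodge (n + (S.wt + 1 + r)) : Submodule ℂ R.W) = 0 := by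
    refine Finset.sum_eq_zero fun r _ => ?_
    rw [add_comm n (S.wt + 1 + r), h1, S.hodge_large (S.wt + 1 + r) (by omega), inf_bot_eq,
      finrank_bot, mul_zero]
  rw [h4, h5, zero_add, add_zero, ← finrank_graded (eig_hodge ι hM hι τ) (le_refl S.wt),
    Finset.mul_sum, ← Finset.sum_add_distrib]
  refine Finset.sum_congr rfl fun q _ => ?_
  rw [add_comm n q, h1]
  ring

private theorem tw_period {τ : K →+* ℂ} (hD : ∀ x, S.InD x ↔ R.InD (tw n • g x)) {z : ℂ}
    (hz : IsDetPeriod ι τ z) :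
    IsDetPeriod (twA g M ι) τ (tw n ^ finrank ℂ (eig ι τ) * z) := by
  obtain ⟨k, v, ω, P, hv, hvs, hω, hωs, hvM, hωD, hP, rfl⟩ := hz
  have hk : finrank ℂ (eig ι τ) = k := by
    rw [← hvs, finrank_span_eq_card hv, Fintype.card_fin]
  have hvs' : Submodule.span ℂ (Set.range fun j => g (v j)) = eig (twA g M ι) τ := by
    rw [tw_eig, ← hvs, Submodule.map_span, ← Set.range_comp]
    rfl
  have hlin : LinearIndependent ℂ fun j => tw n • g (ω j) := by
    have h1 : LinearIndependent ℂ fun j => g (ω j) := hω.map' (g : S.W →ₗ[ℂ] R.W) g.ker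
    exact h1.units_smul fun _ => Units.mk0 (tw n) (tw_ne n)
  refine ⟨k, fun j => g (v j), fun j => tw n • g (ω j), tw n • P,
    hv.map' (g : S.W →ₗ[ℂ] R.W) g.ker, hvs', hlin, ?_, ?_, ?_, ?_, ?_⟩
  · apply le_antisymm
    · refine Submodule.span_le.2 ?_
      rintro _ ⟨j, rfl⟩
      refine Submodule.smul_mem _ _ ?_
      rw [tw_eig]
      exact ⟨ω j, by rw [← hωs]; exact Submodule.subset_span ⟨j, rfl⟩, rfl⟩
    · rw [tw_eig, ← hωs, Submodule.map_span]
      refine Submodule.span_le.2 ?_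
      rintro _ ⟨_, ⟨j, rfl⟩, rfl⟩
      have h1 : (g : S.W →ₗ[ℂ] R.W) (ω j) = (tw n)⁻¹ • (tw n • g (ω j)) := by
        rw [inv_smul_smul₀ (tw_ne n)]
        rfl
      rw [h1]
      exact Submodule.smul_mem _ _ (Submodule.subset_span ⟨j, rfl⟩)
  · intro j
    have h1 : (Submodule.span Qbar (M : Set S.W)).map
        ((g : S.W →ₗ[ℂ] R.W).restrictScalars Qbar) ≤
        Submodule.span Qbar ((twN g M : Submodule ℚ R.W) : Set R.W) := by
      rw [Submodule.map_span]
      refine Submodule.span_mono ?_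
      rintro _ ⟨x, hx, rfl⟩
      exact ⟨x, hx, rfl⟩
    exact h1 ⟨v j, hvM j, rfl⟩
  · exact fun j => (hD _).1 (hωD j)
  · intro i
    simp only [Matrix.smul_apply, smul_eq_mul]
    rw [hP i, map_sum, Finset.smul_sum]
    refine Finset.sum_congr rfl fun j _ => ?_
    rw [map_smul, smul_smul]
  · rw [hk, Matrix.det_smul, Fintype.card_fin]

end sub

/-- The relation for the simple substructures of a structure, from the relation for the triples in
the structures generated by a class which contains its Tate twist. -/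
theorem detFor_untwist {F : Type} [Field F] [NumberField F] {e : F →+* ℂ}
    (he : ∃ d, LiesIn e d) {C₁ : Str → Prop} (hP : ∀ S, C₁ S → Nonempty (Pol S))
    (h₀ : TriplesFor (Gen C₁) e) {R S : Str} (hR : Gen C₁ R) (P : Pol S) (hT : Twist S R) :
    DetFor (fun X => X = S) e := by
  obtain ⟨g, n, hwt, hB, hD, hH⟩ := hT
  intro K _ _ i him _ _ S' hS' M hM ι hι
  subst hS'
  have hD' : ∀ x, S'.InD x ↔ R.InD (tw n • g x) := hD
  obtain ⟨PR⟩ := tw_pol hwt hB hD' hH P
  have hend : ∀ a, IsEnd S' M (ι a) := hι.isEnd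
  have hsub : IsSub R (twN g M) := tw_sub g M hB hD' hH hM.sub
  have hex' : ∃ d, LiesIn (e.comp i) d := by
    obtain ⟨d, hd⟩ := he
    exact ⟨d, hd.1, fun x => hd.2 (i x)⟩
  have hrel : DetRelation (twA g M ι) (e.comp i) := by
    refine detRelation_of_triples (C₀ := fun X => C₁ X ∨ X = R) ?_ he ?_ i (Or.inr rfl) hsub
      (twA g M ι) fun a => tw_end g M ι hD' hH (hend a)
    · rintro T (h | rfl)
      · exact hP T h
      · exact ⟨PR⟩
    · intro Q hQ A
      refine h₀ Q (Gen.mono_of ?_ hQ) A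
      rintro T (h | rfl)
      · exact Gen.base T h
      · exact hR
  have hcond := liesIn_conductor hex'
  intro d _ hd ε hε l τ hτ z hz
  rw [← hd] at hcond
  have hdd : (d : ℚ) ≠ 0 := by exact_mod_cast NeZero.ne d
  have h3 : 3 ≤ d := three_le hcond.2 him
  set m : ℕ := n * finrank ℂ (eig ι τ) with hm
  obtain ⟨εT, hεT⟩ := ex' gammaSpec d h3 (2 * m) (fun _ => (m : ℚ)) fun _ => by ring
  have hgT := gam_const gammaSpec d m εT hεT (by omega) l
  have hz0 : z ≠ 0 := (detPeriod_trace ι hM.sub.le hz).1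
  have h1 := hrel d hd (fun a => ε a + εT a) (fun l' τ' hτ' => ?_) l τ hτ _
    (tw_period g M ι hD' hz)
  · refine sim_of_cls gammaSpec hz0 (gammaProd_ne d ε l) ?_
    have h2 := cls_of_sim gammaSpec h1
    have h4 : tw n ^ finrank ℂ (eig ι τ) = (2 * Real.pi * I) ^ m := by
      rw [hm, pow_mul]
      rfl
    rw [h4, gammaSpec.mul _ _ (two_pi_I_ne m) hz0, cls_two_pi_I gammaSpec,
      cls_gammaProd gammaSpec, tsum_add, hgT, add_comm] at h2
    rw [cls_gammaProd gammaSpec]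
    exact add_right_cancel h2
  · have h2 := hε l' τ' hτ'
    have h4 : ∑ a ∈ Finset.univ.erase (0 : ZMod d), (ε a + εT a) *
        (((l' : ZMod d) * a).val : ℚ) =
        ∑ a ∈ Finset.univ.erase (0 : ZMod d), ε a * (((l' : ZMod d) * a).val : ℚ) +
          (d : ℚ) * m := by
      rw [← hεT l', tsum_id, ← sum_erase, ← Finset.sum_add_distrib]
      exact Finset.sum_congr rfl fun a _ => add_mul _ _ _
    rw [h4, ← h2, tw_type g M ι hwt hH hM.sub hend τ', finrank_eig ι hM.sub hend τ' τ, ← hm]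
    push_cast
    ring

end GD
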